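import Pool.Agent.H142Z.CltK

set_option autoImplicit false
open MeasureTheory ProbabilityTheory Filter Topology Set Polynomial

namespace Pool.Agent.Results.MP_f6b137_pr.CltFails

/-- `p` is the sequence of orthonormal polynomials of `ν`: `p k` has degree exactly `k` and
positive leading coefficient, and the integral of `p j * p k` is the Kronecker delta. -/
def IsOrthonormalSeq (ν : Measure ℝ) (p : ℕ → ℝ[X]) : Prop :=
  (∀ k, (p k).natDegree = k ∧ 0 < (p k).leadingCoeff) ∧
    ∀ j k, ∫ x, (p j).eval x * (p k).eval x ∂ν = if j = k then 1 else 0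

/-- The number `N_n` of (distinct) real zeros of `P_n = ∑ k ≤ n, a k * p k`. -/
noncomputable def realZeroCount {Ω : Type} (p : ℕ → ℝ[X]) (a : ℕ → Ω → ℝ) (n : ℕ) (ω : Ω) : ℝ :=
  ((∑ k ∈ Finset.range (n + 1), C (a k ω) * p k).roots.toFinset.card : ℝ)

/-- The normalised count `(N_n - E N_n) / sqrt (Var N_n)`. -/
noncomputable def normalisedCount {Ω : Type} [MeasurableSpace Ω] (μ : Measure Ω) (p : ℕ → ℝ[X])
    (a : ℕ → Ω → ℝ) (n : ℕ) (ω : Ω) : ℝ :=
  (realZeroCount p a n ω - ∫ ω', realZeroCount p a n ω' ∂μ) / √Var[realZeroCount p a n; μ]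

/-- There is a finite Borel measure on the line, absolutely continuous with support `[0, 1]`,
such that for its orthonormal polynomials and any i.i.d. standard Gaussian coefficients the
normalised number of real zeros of `P_n` (a random variable, with positive variance) stays
bounded by one constant for infinitely many `n`, and so does not converge in distribution to
a standard Gaussian. -/
theorem result : ∃ ν : Measure ℝ, IsFiniteMeasure ν ∧ ν ≪ volume ∧ ν.support = Icc 0 1 ∧
    (∃ p : ℕ → ℝ[X], IsOrthonormalSeq ν p) ∧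
    ∀ p : ℕ → ℝ[X], IsOrthonormalSeq ν p →
      ∀ (Ω : Type) (_ : MeasurableSpace Ω) (μ : Measure Ω) (_ : IsProbabilityMeasure μ)
        (a : ℕ → Ω → ℝ), (∀ k, HasLaw (a k) (gaussianReal 0 1) μ) → iIndepFun a μ →
        (∀ n, AEMeasurable (realZeroCount p a n) μ) ∧
        (∃ L : ℝ, ∃ᶠ n : ℕ in atTop, 0 < Var[realZeroCount p a n; μ] ∧
          ∀ ω, |normalisedCount μ p a n ω| ≤ L) ∧
        ¬ TendstoInDistribution (normalisedCount μ p a) atTop id (fun _ => μ)
          (gaussianReal 0 1) := by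
  obtain ⟨c0, hc0, f, hf, hf0, hgood, hJ⟩ := H142Z.Clt.exists_generic2
  have hU := Helper553.Orth.dens_UMeas hf
  have hJ01 : 0 < Helper553.Orth.mJ 0 1 f := by
    have h := hJ 0 1 le_rfl one_pos le_rfl
    push_cast at h
    exact h
  refine ⟨Helper553.Orth.dens f, hU.fin, Helper553.Orth.dens_ac f,
    Helper553.Orth.dens_support hf hf0 hJ, ?_, ?_⟩
  · obtain ⟨p, hp1, hp2⟩ :=
      Helper553.Orth.exists_orthonormal hU (Helper553.Orth.dens_posF hf hf0 hJ01)
    exact ⟨p, hp1, hp2⟩
  · intro p hp Ω _ μ _ a hlaw hind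
    obtain ⟨L, hL⟩ := H142Z.Clt.normalised_bounded (N := realZeroCount p a) (fun n ω =>
      ⟨Nat.cast_nonneg _, Nat.cast_le.mpr (Helper553.Orth.nr_le
        (Helper553.Orth.PP_natDegree (fun k => (hp.1 k).1) a n ω))⟩) (half_pos hc0)
      (H142Z.Clt.variance_quadratic hf hf0 hgood hp.1 hp.2 μ a hlaw hind)
    exact ⟨H142Z.Clt.count_aemeasurable p (fun k => (hlaw k).aemeasurable), ⟨L, hL⟩,
      H142Z.Clt.not_gaussian (hL.mono (fun n hn => hn.2))⟩

end Pool.Agent.Results.MP_f6b137_pr.CltFails
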